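import Pool.Agent.H62.Hsc4

namespace Pool.Agent.Results.MP_d44404_lc.Dec
open Pool.Agent.H62.Hsc

theorem result : ∃ f : Code → Bool, Computable f ∧
    ∀ (H : Type) [HeytingAlgebra H] (n : ℕ) (e : Fin n ≃ H),
      f (code e) = true ↔ HSC (SCompl (MPder (logic (heyt H)))) := by
  have h0 := p_algN
  obtain ⟨f, hf, h⟩ := dec_of_pr (p_crit (U := fun c : Code => TF (List.range c.1) (algN c))
    (B := fun c : Code => PA (algN c) (allL (List.range c.1) (List.range c.1).length))
    (by fun_prop) (by fun_prop))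
  exact ⟨f, hf, fun H _ n e => (h _).trans (scompl_code e).symm⟩

end Pool.Agent.Results.MP_d44404_lc.Dec
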